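import Pool.Agent.J4H27.GE.Defs
import Pool.Agent.J4H75.GC.Val

/-!
# Project GE: part VAM (expansions of the value of the auxiliary polynomial)
-/

set_option autoImplicit false

open MvPolynomial Height Filter NumberField

namespace Pool.Agent.J4H79.GE

open Pool.Agent.J4H27.GC Pool.Agent.J4H27.GE Pool.Agent.J4H75.GC

section

variable {K : Type} [Field K] [NumberField K] (a b : Fin 2 → 𝓞 K) {m : ℕ} (D k : Fin m → ℕ)

/-- splitting of the exponents -/
def spl : (NN D) ≃ N1 D × N1 D where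
  toFun n := (fun i => n i 0, fun i => n i 1)
  invFun p := fun i => ![p.1 i, p.2 i]
  left_inv n := by
    funext i j
    fin_cases j <;> rfl
  right_inv p := rfl

lemma row_eq {S : Type} [CommRing S] (g : 𝓞 K →+* S) (x h : Ix m → S) (hE : OnM a b g x h)
    (r : Fin m → Bool) (i : Fin m) (n : ℕ) (hn : n ≤ D i) :
    rv a b D k g x h (r i) i 1 n =
      ∑ c ∈ Finset.range (2 * D i + 1) ×ˢ (Finset.univ : Finset Bool),
        (mm a b (r i) 1 (k i) (D i) n c).eval₂ g (fun j => x (none, j)) *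
          (x (some i, 1) ^ c.1 * if c.2 then h (some i, 1) * h (none, 1) else 1) := by
  set y : Fin 2 → S := fun j => x (none, j) with hy
  set t : S := h (some i, 1) * h (none, 1) with ht0
  have ht : t ^ 2 = ro g (x (some i, 1)) y (ff (a 1) (b 1) 1) := by
    rw [ro_ff, ht0, mul_pow, hE (some i), hE none]
  have h1 : rv a b D k g x h (r i) i 1 n =
      eQ g a b (x (some i, 1)) y t 1 (rw1 a b (r i) 1 (k i) (D i) n) := by
    obtain ⟨hP, hM, hA, hC⟩ := eQ_rows (X0 := x (some i, 1)) (y := y) (t := t) (j := 1) g a b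
      (k i)
    unfold rv rw1
    cases r i
    · simp only [Bool.false_eq_true, if_false]
      rw [eQ_mul g ht, eQ_pow g ht, eQ_pow g ht, hM, hC]
      congr 2
      rw [ht0]
      ring
    · simp only [if_true]
      rw [eQ_mul g ht, eQ_pow g ht, eQ_pow g ht, hP, hA]
      congr 2
      rw [ht0]
      ring
  obtain ⟨C0, -, hMM⟩ := t_MMF K a b
  have h0 := fun c => (hMM (r i) 1 (k i) (D i) n c hn).1
  have hre : ro g (x (some i, 1)) y (rw1 a b (r i) 1 (k i) (D i) n).re =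
      ∑ l ∈ Finset.range (2 * D i + 1), (mm a b (r i) 1 (k i) (D i) n (l, false)).eval₂ g y *
        x (some i, 1) ^ l :=
    ro_range g _ _ _ _ (fun l hl => h0 (l, false) (Nat.lt_of_succ_le hl))
  have him : ro g (x (some i, 1)) y (rw1 a b (r i) 1 (k i) (D i) n).im =
      ∑ l ∈ Finset.range (2 * D i + 1), (mm a b (r i) 1 (k i) (D i) n (l, true)).eval₂ g y *
        x (some i, 1) ^ l :=
    ro_range g _ _ _ _ (fun l hl => h0 (l, true) (Nat.lt_of_succ_le hl))
  rw [h1]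
  unfold eQ
  rw [hre, him, Finset.sum_product, Finset.sum_mul, ← Finset.sum_add_distrib]
  refine Finset.sum_congr rfl (fun l _ => ?_)
  rw [Fintype.sum_bool]
  simp only [Bool.false_eq_true, if_false, if_true]
  ring

lemma ev_sum {S : Type} [CommRing S] (g : 𝓞 K →+* S) (y : Fin 2 → S) {ι : Type} (s : Finset ι)
    (P : ι → MvPolynomial (Fin 2) (𝓞 K)) : (∑ n ∈ s, P n).eval₂ g y = ∑ n ∈ s, (P n).eval₂ g y := by
  have := map_sum (eval₂Hom g y) P s
  simpa only [coe_eval₂Hom] using this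

lemma ev_prod {S : Type} [CommRing S] (g : 𝓞 K →+* S) (y : Fin 2 → S) {ι : Type} (s : Finset ι)
    (P : ι → MvPolynomial (Fin 2) (𝓞 K)) : (∏ n ∈ s, P n).eval₂ g y = ∏ n ∈ s, (P n).eval₂ g y := by
  have := map_prod (eval₂Hom g y) P s
  simpa only [coe_eval₂Hom] using this

lemma ev_GB {S : Type} [CommRing S] (g : 𝓞 K →+* S) (y : Fin 2 → S)
    (F : NN D → MvPolynomial (Fin 2) (𝓞 K)) (r : Fin m → Bool) (n0 : N1 D)
    (κ : Fin m → ℕ × Bool) : (GB a b D k F r n0 κ).eval₂ g y =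
      ∑ n1 : N1 D, (F (fun i => ![n0 i, n1 i])).eval₂ g y *
        ∏ i, (mm a b (r i) 1 (k i) (D i) (n1 i) (κ i)).eval₂ g y := by
  unfold GB
  rw [ev_sum]
  refine Finset.sum_congr rfl fun n1 _ => ?_
  rw [eval₂_mul, ev_prod]

lemma ev_GA {S : Type} [CommRing S] (g : 𝓞 K →+* S) (y : Fin 2 → S)
    (F : NN D → MvPolynomial (Fin 2) (𝓞 K)) (r : Fin m → Bool) (α : Fin m → ℕ)
    (κ : Fin m → ℕ × Bool) : (GA a b D k F r α κ).eval₂ g y =
      ∑ n0 : N1 D, (∏ i, ((((n0 i : ℕ).choose (α i) : ℕ) : S) * y 0 ^ (4 ^ k i * (n0 i : ℕ)))) *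
        (GB a b D k F r n0 κ).eval₂ g y := by
  unfold GA
  rw [ev_sum]
  refine Finset.sum_congr rfl fun n0 _ => ?_
  rw [eval₂_mul, ev_prod]
  congr 1
  refine Finset.prod_congr rfl fun i _ => ?_
  rw [eval₂_mul, eval₂_pow, eval₂_X]
  congr 1
  have := map_natCast (eval₂Hom g y) ((n0 i : ℕ).choose (α i))
  simpa only [coe_eval₂Hom] using this

theorem vam1 {S : Type} [CommRing S] (g : 𝓞 K →+* S) (x h : Ix m → S) (hE : OnM a b g x h)
    (r : Fin m → Bool) (F : NN D → MvPolynomial (Fin 2) (𝓞 K)) :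
    Vm a b D k g x h r F = ∑ n0 : N1 D,
      (∏ i, (x (some i, 0) * x (none, 0) ^ (4 ^ k i)) ^ (n0 i : ℕ)) *
        ∑ κ ∈ KB D, (GB a b D k F r n0 κ).eval₂ g (fun j => x (none, j)) *
          ∏ i, (x (some i, 1) ^ (κ i).1 * if (κ i).2 then h (some i, 1) * h (none, 1) else 1) := by
  classical
  unfold Vm
  rw [← (spl D).symm.sum_comp, Fintype.sum_prod_type]
  refine Finset.sum_congr rfl fun n0 _ => ?_
  have h1 : ∀ n1 : N1 D, (F ((spl D).symm (n0, n1))).eval₂ g (fun j => x (none, j)) *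
      ∏ i, ((x (some i, 0) * x (none, 0) ^ (4 ^ k i)) ^ ((spl D).symm (n0, n1) i 0 : ℕ) *
        rv a b D k g x h (r i) i 1 ((spl D).symm (n0, n1) i 1)) =
      (∏ i, (x (some i, 0) * x (none, 0) ^ (4 ^ k i)) ^ (n0 i : ℕ)) *
        ∑ κ ∈ KB D, (F (fun i => ![n0 i, n1 i])).eval₂ g (fun j => x (none, j)) *
          ∏ i, ((mm a b (r i) 1 (k i) (D i) (n1 i) (κ i)).eval₂ g (fun j => x (none, j)) *
          (x (some i, 1) ^ (κ i).1 * if (κ i).2 then h (some i, 1) * h (none, 1) else 1)) := by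
    intro n1
    have e0 : ∀ i, (((spl D).symm (n0, n1) i 0 : Fin (D i + 1)) : ℕ) = (n0 i : ℕ) := fun _ => rfl
    have e1 : ∀ i, (((spl D).symm (n0, n1) i 1 : Fin (D i + 1)) : ℕ) = (n1 i : ℕ) := fun _ => rfl
    have e2 : (spl D).symm (n0, n1) = fun i => ![n0 i, n1 i] := rfl
    simp only [e0, e1]
    rw [e2, Finset.prod_mul_distrib, ← Finset.mul_sum]
    have e3 : ∏ i, rv a b D k g x h (r i) i 1 (n1 i) = ∑ κ ∈ KB D,
        ∏ i, ((mm a b (r i) 1 (k i) (D i) (n1 i) (κ i)).eval₂ g (fun j => x (none, j)) *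
          (x (some i, 1) ^ (κ i).1 * if (κ i).2 then h (some i, 1) * h (none, 1) else 1)) := by
      unfold KB
      rw [← Finset.prod_univ_sum (fun i => Finset.range (2 * D i + 1) ×ˢ (Finset.univ : Finset Bool))
        (fun i (c : ℕ × Bool) => (mm a b (r i) 1 (k i) (D i) (n1 i) c).eval₂ g (fun j => x (none, j)) *
          (x (some i, 1) ^ c.1 * if c.2 then h (some i, 1) * h (none, 1) else 1))]
      refine Finset.prod_congr rfl fun i _ => ?_
      exact row_eq a b D k g x h hE r i (n1 i) (Nat.lt_succ_iff.1 (n1 i).2)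
    rw [e3]
    ring
  rw [Finset.sum_congr rfl fun n1 _ => h1 n1, ← Finset.mul_sum, Finset.sum_comm]
  congr 1
  refine Finset.sum_congr rfl fun κ _ => ?_
  rw [ev_GB, Finset.sum_mul]
  refine Finset.sum_congr rfl fun n1 _ => ?_
  rw [Finset.prod_mul_distrib]
  ring

theorem t_VAM : S_VAM := by
  classical
  intro K _ _ a b m D k S _ g x h hE r F
  refine ⟨vam1 a b D k g x h hE r F, ?_⟩
  rw [vam1 a b D k g x h hE r F]
  have h1 : ∀ n0 : N1 D, (∏ i, (x (some i, 0) * x (none, 0) ^ (4 ^ k i)) ^ (n0 i : ℕ)) =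
      ∑ α ∈ KA D, (∏ i, ((((n0 i : ℕ).choose (α i) : ℕ) : S) *
        x (none, 0) ^ (4 ^ k i * (n0 i : ℕ)))) * ∏ i, (x (some i, 0) - 1) ^ (α i) := by
    intro n0
    have e1 : ∀ i : Fin m, (x (some i, 0) * x (none, 0) ^ (4 ^ k i)) ^ (n0 i : ℕ) =
        ∑ l ∈ Finset.range (D i + 1), ((((n0 i : ℕ).choose l : ℕ) : S) *
          x (none, 0) ^ (4 ^ k i * (n0 i : ℕ))) * (x (some i, 0) - 1) ^ l := by
      intro i
      have e2 : x (some i, 0) ^ (n0 i : ℕ) =
          ∑ l ∈ Finset.range (D i + 1), (((n0 i : ℕ).choose l : ℕ) : S) * (x (some i, 0) - 1) ^ l := by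
        have hle : (n0 i : ℕ) + 1 ≤ D i + 1 := by have := (n0 i).2; omega
        rw [← Finset.sum_subset (Finset.range_subset_range.2 hle)]
        · have := add_pow (x (some i, 0) - 1) 1 (n0 i : ℕ)
          rw [sub_add_cancel] at this
          rw [this]
          refine Finset.sum_congr rfl fun l _ => ?_
          rw [one_pow, mul_one, mul_comm]
        · intro l _ hl
          rw [Finset.mem_range, not_lt] at hl
          rw [Nat.choose_eq_zero_of_lt (by omega)]
          simp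
      rw [mul_pow, e2, Finset.sum_mul]
      refine Finset.sum_congr rfl fun l _ => ?_
      rw [← pow_mul]
      ring
    rw [Finset.prod_congr rfl fun i _ => e1 i, Finset.prod_univ_sum]
    refine Finset.sum_congr rfl fun α _ => ?_
    rw [Finset.prod_mul_distrib]
  rw [Finset.sum_congr rfl fun n0 _ => by rw [h1 n0, Finset.sum_mul], Finset.sum_comm]
  refine Finset.sum_congr rfl fun α _ => ?_
  have h2 : ∀ n0 : N1 D, (∏ i, ((((n0 i : ℕ).choose (α i) : ℕ) : S) *
        x (none, 0) ^ (4 ^ k i * (n0 i : ℕ)))) * (∏ i, (x (some i, 0) - 1) ^ (α i)) *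
        ∑ κ ∈ KB D, (GB a b D k F r n0 κ).eval₂ g (fun j => x (none, j)) *
          ∏ i, (x (some i, 1) ^ (κ i).1 * if (κ i).2 then h (some i, 1) * h (none, 1) else 1) =
      ∑ κ ∈ KB D, ((∏ i, ((((n0 i : ℕ).choose (α i) : ℕ) : S) *
        x (none, 0) ^ (4 ^ k i * (n0 i : ℕ)))) * (GB a b D k F r n0 κ).eval₂ g (fun j => x (none, j))) *
          ∏ i, ((x (some i, 0) - 1) ^ (α i) *
            (x (some i, 1) ^ (κ i).1 * if (κ i).2 then h (some i, 1) * h (none, 1) else 1)) := by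
    intro n0
    rw [Finset.mul_sum]
    refine Finset.sum_congr rfl fun κ _ => ?_
    rw [Finset.prod_mul_distrib (f := fun i => (x (some i, 0) - 1) ^ (α i))]
    ring
  rw [Finset.sum_congr rfl fun n0 _ => h2 n0, Finset.sum_comm]
  refine Finset.sum_congr rfl fun κ _ => ?_
  rw [← Finset.sum_mul, ev_GA]

end

end Pool.Agent.J4H79.GE
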